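import Pool.Agent.Helper23.MV.StH

/-!
# Project MV, module HYP: the hyperbola identity
-/

set_option autoImplicit false

namespace Pool.Agent.Helper99.MV

open Finset
open Pool.Agent.Helper23.MV

/-- abstract hyperbola identity -/
private theorem hyp_abs (F G : ℕ → ℂ) (y : ℝ) (hy : 1 ≤ y) :
    ∑ n ∈ Ioc 0 ⌊y⌋₊, ∑ x ∈ n.divisorsAntidiagonal, F x.1 * G x.2 =
      ∑ a ∈ Ioc 0 ⌊√y⌋₊, F a * ∑ b ∈ Ioc 0 ⌊y / a⌋₊, G b +
      ∑ b ∈ Ioc 0 ⌊√y⌋₊, G b * ∑ a ∈ Ioc 0 ⌊y / b⌋₊, F a -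
      (∑ a ∈ Ioc 0 ⌊√y⌋₊, F a) * ∑ b ∈ Ioc 0 ⌊√y⌋₊, G b := by
  classical
  have hy0 : (0 : ℝ) ≤ y := by linarith
  set N := ⌊y⌋₊ with hN
  set M := ⌊√y⌋₊ with hM
  -- the square facts
  have hMM : M * M ≤ N := by
    rw [hN]
    apply Nat.le_floor
    push_cast
    have h1 : (M : ℝ) ≤ √y := Nat.floor_le (Real.sqrt_nonneg y)
    calc (M : ℝ) * M ≤ √y * √y := by
          apply mul_le_mul h1 h1 (by positivity) (Real.sqrt_nonneg y)
      _ = y := Real.mul_self_sqrt hy0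
  have hM1 : N < (M + 1) * (M + 1) := by
    have h1 : √y < (M : ℝ) + 1 := Nat.lt_floor_add_one _
    have h2 : y < ((M : ℝ) + 1) * (M + 1) := by
      calc y = √y * √y := (Real.mul_self_sqrt hy0).symm
        _ < ((M : ℝ) + 1) * (M + 1) := by
          apply mul_lt_mul'' h1 h1 (Real.sqrt_nonneg y) (Real.sqrt_nonneg y)
    have h3 : (N : ℝ) ≤ y := Nat.floor_le hy0
    have h4 : (N : ℝ) < ((M : ℝ) + 1) * (M + 1) := lt_of_le_of_lt h3 h2
    exact_mod_cast h4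
  have hMN : M ≤ N := by
    rcases Nat.eq_zero_or_pos M with h | h
    · omega
    · nlinarith
  set S := ((Ioc 0 N) ×ˢ (Ioc 0 N)).filter (fun x : ℕ × ℕ => x.1 * x.2 ≤ N) with hS
  have hdiv : ∀ a : ℕ, 0 < a → ∀ b : ℕ, (b ≤ ⌊y / (a : ℝ)⌋₊ ↔ a * b ≤ N) := by
    intro a ha b
    have h0 : (0 : ℝ) < a := by exact_mod_cast ha
    rw [Nat.le_floor_iff (by positivity), le_div_iff₀ h0, hN, Nat.le_floor_iff hy0]
    push_cast
    rw [mul_comm]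
  -- left side is the sum over S
  have hL : ∑ n ∈ Ioc 0 N, ∑ x ∈ n.divisorsAntidiagonal, F x.1 * G x.2 =
      ∑ x ∈ S, F x.1 * G x.2 := by
    rw [Finset.sum_sigma']
    apply Finset.sum_nbij' (i := fun p => p.2) (j := fun x => ⟨x.1 * x.2, x⟩)
    · rintro ⟨n, x⟩ hp
      simp only [Finset.mem_sigma, Nat.mem_divisorsAntidiagonal, Finset.mem_Ioc] at hp
      obtain ⟨⟨hn1, hn2⟩, hx, hn0⟩ := hp
      have h1 : x.1 ≠ 0 := by
        intro h; rw [h, zero_mul] at hx; exact hn0 hx.symm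
      have h2 : x.2 ≠ 0 := by
        intro h; rw [h, mul_zero] at hx; exact hn0 hx.symm
      have h3 : x.1 ≤ x.1 * x.2 := Nat.le_mul_of_pos_right _ (Nat.pos_of_ne_zero h2)
      have h4 : x.2 ≤ x.1 * x.2 := Nat.le_mul_of_pos_left _ (Nat.pos_of_ne_zero h1)
      simp only [hS, Finset.mem_filter, Finset.mem_product, Finset.mem_Ioc]
      refine ⟨⟨⟨Nat.pos_of_ne_zero h1, by omega⟩, ⟨Nat.pos_of_ne_zero h2, by omega⟩⟩, by omega⟩
    · rintro x hx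
      simp only [hS, Finset.mem_filter, Finset.mem_product, Finset.mem_Ioc] at hx
      obtain ⟨⟨⟨h1, _⟩, ⟨h2, _⟩⟩, h3⟩ := hx
      simp only [Finset.mem_sigma, Nat.mem_divisorsAntidiagonal, Finset.mem_Ioc]
      have h4 : 0 < x.1 * x.2 := Nat.mul_pos h1 h2
      exact ⟨⟨h4, h3⟩, trivial, h4.ne'⟩
    · rintro ⟨n, x⟩ hp
      simp only [Finset.mem_sigma, Nat.mem_divisorsAntidiagonal, Finset.mem_Ioc] at hp
      obtain ⟨_, hx, _⟩ := hp
      subst hx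
      rfl
    · rintro x _
      rfl
    · rintro ⟨n, x⟩ _
      rfl
  rw [hL]
  -- the three parts
  have hA : ∑ x ∈ S, (if x.1 ≤ M then F x.1 * G x.2 else 0) =
      ∑ a ∈ Ioc 0 M, F a * ∑ b ∈ Ioc 0 ⌊y / a⌋₊, G b := by
    simp_rw [Finset.mul_sum]
    rw [Finset.sum_sigma', ← Finset.sum_filter]
    symm
    apply Finset.sum_nbij' (i := fun p => (p.1, p.2)) (j := fun x => ⟨x.1, x.2⟩)
    · rintro ⟨a, b⟩ hp
      simp only [Finset.mem_sigma, Finset.mem_Ioc] at hp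
      obtain ⟨⟨ha1, ha2⟩, hb1, hb2⟩ := hp
      rw [hdiv a ha1] at hb2
      have h3 : b ≤ a * b := Nat.le_mul_of_pos_left _ ha1
      simp only [hS, Finset.mem_filter, Finset.mem_product, Finset.mem_Ioc]
      exact ⟨⟨⟨⟨ha1, by omega⟩, ⟨hb1, by omega⟩⟩, hb2⟩, ha2⟩
    · rintro ⟨a, b⟩ hx
      simp only [hS, Finset.mem_filter, Finset.mem_product, Finset.mem_Ioc] at hx
      obtain ⟨⟨⟨⟨h1, _⟩, ⟨h2, _⟩⟩, h3⟩, h4⟩ := hx
      simp only [Finset.mem_sigma, Finset.mem_Ioc]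
      rw [hdiv a h1]
      exact ⟨⟨h1, h4⟩, h2, h3⟩
    · rintro ⟨a, b⟩ _
      rfl
    · rintro ⟨a, b⟩ _
      rfl
    · rintro ⟨a, b⟩ _
      rfl
  have hB : ∑ x ∈ S, (if x.2 ≤ M then F x.1 * G x.2 else 0) =
      ∑ b ∈ Ioc 0 M, G b * ∑ a ∈ Ioc 0 ⌊y / b⌋₊, F a := by
    simp_rw [Finset.mul_sum]
    rw [Finset.sum_sigma', ← Finset.sum_filter]
    symm
    apply Finset.sum_nbij' (i := fun p => (p.2, p.1)) (j := fun x => ⟨x.2, x.1⟩)
    · rintro ⟨b, a⟩ hp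
      simp only [Finset.mem_sigma, Finset.mem_Ioc] at hp
      obtain ⟨⟨hb1, hb2⟩, ha1, ha2⟩ := hp
      rw [hdiv b hb1] at ha2
      have h3 : a ≤ b * a := Nat.le_mul_of_pos_left _ hb1
      have h4 : b * a = a * b := mul_comm _ _
      simp only [hS, Finset.mem_filter, Finset.mem_product, Finset.mem_Ioc]
      exact ⟨⟨⟨⟨ha1, by omega⟩, ⟨hb1, by omega⟩⟩, by omega⟩, hb2⟩
    · rintro ⟨a, b⟩ hx
      simp only [hS, Finset.mem_filter, Finset.mem_product, Finset.mem_Ioc] at hx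
      obtain ⟨⟨⟨⟨h1, _⟩, ⟨h2, _⟩⟩, h3⟩, h4⟩ := hx
      simp only [Finset.mem_sigma, Finset.mem_Ioc]
      rw [hdiv b h2]
      exact ⟨⟨h2, h4⟩, h1, by rw [mul_comm]; exact h3⟩
    · rintro ⟨a, b⟩ _
      rfl
    · rintro ⟨a, b⟩ _
      rfl
    · rintro ⟨a, b⟩ _
      exact mul_comm _ _
  have hC : ∑ x ∈ S, (if x.1 ≤ M ∧ x.2 ≤ M then F x.1 * G x.2 else 0) =
      (∑ a ∈ Ioc 0 M, F a) * ∑ b ∈ Ioc 0 M, G b := by
    rw [Finset.sum_mul_sum, ← Finset.sum_product', ← Finset.sum_filter]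
    congr 1
    ext ⟨a, b⟩
    simp only [hS, Finset.mem_filter, Finset.mem_product, Finset.mem_Ioc]
    constructor
    · rintro ⟨⟨⟨⟨h1, _⟩, ⟨h2, _⟩⟩, h3⟩, h4, h5⟩
      exact ⟨⟨h1, h4⟩, ⟨h2, h5⟩⟩
    · rintro ⟨⟨h1, h4⟩, ⟨h2, h5⟩⟩
      have : a * b ≤ M * M := Nat.mul_le_mul h4 h5
      exact ⟨⟨⟨⟨h1, by omega⟩, ⟨h2, by omega⟩⟩, by omega⟩, h4, h5⟩
  rw [← hA, ← hB, ← hC, ← Finset.sum_add_distrib, ← Finset.sum_sub_distrib]
  apply Finset.sum_congr rfl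
  rintro ⟨a, b⟩ hx
  simp only [hS, Finset.mem_filter, Finset.mem_product, Finset.mem_Ioc] at hx
  obtain ⟨⟨⟨h1, _⟩, ⟨h2, _⟩⟩, h3⟩ := hx
  have h4 : a ≤ M ∨ b ≤ M := by
    by_contra hcon
    push Not at hcon
    have : (M + 1) * (M + 1) ≤ a * b := Nat.mul_le_mul hcon.1 hcon.2
    omega
  by_cases ha : a ≤ M <;> by_cases hb : b ≤ M
  · simp [ha, hb]
  · simp [ha, hb]
  · simp [ha, hb]
  · exact absurd h4 (by tauto)

/-- a real character takes real values -/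
private theorem hyp_real (e : PCh) (h : e.χ ^ 2 = 1) (n : ℕ) : e.ev n = (((e.ev n).re : ℝ) : ℂ) := by
  have h1 : e.χ (n : ZMod e.r) ^ 2 = (1 : DirichletCharacter ℂ e.r) (n : ZMod e.r) := by
    rw [← h, MulChar.pow_apply' _ two_ne_zero]
  have h2 : e.ev n = 0 ∨ e.ev n = 1 ∨ e.ev n = -1 := by
    unfold PCh.ev
    by_cases hu : IsUnit (n : ZMod e.r)
    · rw [MulChar.one_apply hu] at h1
      right
      have h3 : (e.χ (n : ZMod e.r) - 1) * (e.χ (n : ZMod e.r) + 1) = 0 := by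
        linear_combination h1
      rcases mul_eq_zero.mp h3 with h4 | h4
      · left
        linear_combination h4
      · right
        linear_combination h4
    · left
      exact MulChar.map_nonunit _ hu
  rcases h2 with h2 | h2 | h2 <;> rw [h2] <;> simp

theorem hHyp : StHyp := by
  intro c e δ ψ y s he hψ hy
  have key := hyp_abs (fun a => c.ev a * (a : ℂ) ^ (-s))
    (fun b => ψ (b : ZMod (c.r * e.r)) * (b : ℂ) ^ (-(s + δ))) y hy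
  have hneg : ∀ b : ℕ, (b : ℂ) ^ (-s - (δ : ℂ)) = (b : ℂ) ^ (-(s + (δ : ℂ))) := by
    intro b
    congr 1
    ring
  unfold DS
  simp_rw [hneg]
  simp only [PCh.ev] at key ⊢
  rw [← key]
  unfold TF
  apply Finset.sum_congr rfl
  intro n hn
  have hn0 : n ≠ 0 := by
    rw [Finset.mem_Ioc] at hn
    omega
  have h1 : ff e δ n = ∑ x ∈ n.divisorsAntidiagonal, (e.ev x.2).re * (x.2 : ℝ) ^ (-δ) := by
    unfold ff
    rw [Nat.sum_divisorsAntidiagonal' (f := fun a b => (e.ev b).re * (b : ℝ) ^ (-δ))]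
  rw [h1]
  push_cast
  rw [Finset.sum_mul, Finset.sum_mul]
  apply Finset.sum_congr rfl
  intro x hx
  rw [Nat.mem_divisorsAntidiagonal] at hx
  obtain ⟨hx, _⟩ := hx
  have hx1 : x.1 ≠ 0 := by
    intro h; rw [h, zero_mul] at hx; exact hn0 hx.symm
  have hx2 : x.2 ≠ 0 := by
    intro h; rw [h, mul_zero] at hx; exact hn0 hx.symm
  have hr := hyp_real e he x.2
  have h2 : (((x.2 : ℝ) ^ (-δ) : ℝ) : ℂ) = (x.2 : ℂ) ^ (-(δ : ℂ)) := by
    rw [Complex.ofReal_cpow (by positivity)]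
    push_cast
    rfl
  have h3 : (n : ℂ) ^ (-s) = (x.1 : ℂ) ^ (-s) * (x.2 : ℂ) ^ (-s) := by
    rw [← hx]
    push_cast
    rw [Complex.natCast_mul_natCast_cpow]
  have h4 : (x.2 : ℂ) ^ (-(s + (δ : ℂ))) = (x.2 : ℂ) ^ (-s) * (x.2 : ℂ) ^ (-(δ : ℂ)) := by
    rw [← Complex.cpow_add _ _ (by exact_mod_cast hx2)]
    congr 1
    ring
  have h5 : c.ev n = c.ev x.1 * c.ev x.2 := by
    unfold PCh.ev
    rw [← hx]
    push_cast
    rw [map_mul]
  rw [hψ, h3, h4, h5, h2, ← hr]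
  simp only [PCh.ev]
  ring

end Pool.Agent.Helper99.MV
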