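import Pool.Agent.Helper99.MV.M_RRI

/-!
# Project MV, module JIN: integrals of the main sums
-/

set_option autoImplicit false

namespace Pool.Agent.Helper99.MV

open Finset MeasureTheory
open Pool.Agent.Helper48.BK (ex th)
open Pool.Agent.Helper23.MV

/-- Abel summation -/
private theorem abel_Jin (w : ℕ → ℝ) (z : ℕ → ℂ) (a b : ℕ) (hab : a ≤ b) :
    ∑ n ∈ Ioc a b, (w n : ℂ) * z n = (w b : ℂ) * ∑ n ∈ Ioc a b, z n -
      ∑ k ∈ Ico a b, ((w (k + 1) - w k : ℝ) : ℂ) * ∑ n ∈ Ioc a k, z n := by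
  induction b, hab using Nat.le_induction with
  | base => simp
  | succ b hb ih =>
    have h1 : Ioc a (b + 1) = insert (b + 1) (Ioc a b) := by
      ext x
      simp only [Finset.mem_Ioc, Finset.mem_insert]
      omega
    have h2 : b + 1 ∉ Ioc a b := by simp
    rw [h1, Finset.sum_insert h2, Finset.sum_insert h2, ih, Finset.sum_Ico_succ_top hb]
    push_cast
    ring

private theorem abel_bound_Jin (w : ℕ → ℝ) (z : ℕ → ℂ) (a b : ℕ) (hab : a ≤ b) (A : ℝ)
    (hA : ∀ k, a ≤ k → k ≤ b → ‖∑ n ∈ Ioc a k, z n‖ ≤ A) :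
    ‖∑ n ∈ Ioc a b, (w n : ℂ) * z n‖ ≤ (|w b| + ∑ k ∈ Ico a b, |w (k + 1) - w k|) * A := by
  rw [abel_Jin w z a b hab]
  calc ‖(w b : ℂ) * ∑ n ∈ Ioc a b, z n -
      ∑ k ∈ Ico a b, ((w (k + 1) - w k : ℝ) : ℂ) * ∑ n ∈ Ioc a k, z n‖
      ≤ ‖(w b : ℂ) * ∑ n ∈ Ioc a b, z n‖ +
        ‖∑ k ∈ Ico a b, ((w (k + 1) - w k : ℝ) : ℂ) * ∑ n ∈ Ioc a k, z n‖ := norm_sub_le _ _
    _ ≤ |w b| * A + ∑ k ∈ Ico a b, |w (k + 1) - w k| * A := by
        apply add_le_add
        · rw [norm_mul, Complex.norm_real, Real.norm_eq_abs]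
          exact mul_le_mul_of_nonneg_left (hA b hab le_rfl) (abs_nonneg _)
        · apply (norm_sum_le _ _).trans
          apply Finset.sum_le_sum
          intro k hk
          rw [Finset.mem_Ico] at hk
          rw [norm_mul, Complex.norm_real, Real.norm_eq_abs]
          exact mul_le_mul_of_nonneg_left (hA k hk.1 (by omega)) (abs_nonneg _)
    _ = (|w b| + ∑ k ∈ Ico a b, |w (k + 1) - w k|) * A := by
        rw [add_mul, Finset.sum_mul]

private theorem ex_norm_Jin (t : ℝ) : ‖ex t‖ = 1 := by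
  unfold ex
  have : (2 * (Real.pi : ℂ) * t * Complex.I) = ((2 * Real.pi * t : ℝ) : ℂ) * Complex.I := by
    push_cast; ring
  rw [this, Complex.norm_exp_ofReal_mul_I]

/-- geometric sums -/
private theorem geo_Jin (a k : ℕ) (β : ℝ) (hβ0 : β ≠ 0) (hβ : |β| ≤ 1 / 2) :
    ‖∑ n ∈ Ioc a k, ex (n * β)‖ ≤ 1 / (2 * |β|) := by
  have hb : 0 < |β| := abs_pos.mpr hβ0
  -- telescoping
  have h1 : (ex β - 1) * ∑ n ∈ Ioc a k, ex (n * β) =
      if a ≤ k then ex ((k + 1 : ℕ) * β) - ex ((a + 1 : ℕ) * β) else 0 := by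
    split_ifs with hak
    · induction k, hak using Nat.le_induction with
      | base => simp
      | succ b hb ih =>
        have h1 : Ioc a (b + 1) = insert (b + 1) (Ioc a b) := by
          ext x
          simp only [Finset.mem_Ioc, Finset.mem_insert]
          omega
        have h2 : b + 1 ∉ Ioc a b := by simp
        rw [h1, Finset.sum_insert h2, mul_add, ih]
        have h3 : ex ((b + 1 + 1 : ℕ) * β) = ex β * ex ((b + 1 : ℕ) * β) := by
          rw [← ex_add_Rri]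
          congr 1
          push_cast
          ring
        rw [h3]
        ring
    · rw [Finset.Ioc_eq_empty (by omega)]
      simp
  have h2 : ‖(ex β - 1) * ∑ n ∈ Ioc a k, ex (n * β)‖ ≤ 2 := by
    rw [h1]
    split_ifs
    · apply (norm_sub_le _ _).trans
      rw [ex_norm_Jin, ex_norm_Jin]
      norm_num
    · simp
  have h3 : 4 * |β| ≤ ‖ex β - 1‖ := by
    have e1 : ex β - 1 = Complex.exp ((2 * Real.pi * β : ℝ) * Complex.I) - 1 := by
      unfold ex
      congr 2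
      push_cast
      ring
    have e2 : ‖Complex.exp ((2 * Real.pi * β : ℝ) * Complex.I) - 1‖ =
        2 * |Real.sin (Real.pi * β)| := by
      have := Complex.norm_exp_I_mul_ofReal_sub_one (2 * Real.pi * β)
      rw [mul_comm Complex.I] at this
      rw [this, norm_mul, Real.norm_eq_abs, Real.norm_eq_abs]
      rw [abs_of_pos (by norm_num : (0 : ℝ) < 2)]
      congr 3
      ring
    rw [e1, e2]
    have e3 : |Real.sin (Real.pi * β)| = Real.sin (Real.pi * |β|) := by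
      have hnn : 0 ≤ Real.sin (Real.pi * |β|) := by
        apply Real.sin_nonneg_of_nonneg_of_le_pi (by positivity)
        nlinarith [Real.pi_pos]
      rcases le_or_gt 0 β with h | h
      · rw [abs_of_nonneg h] at hnn ⊢
        exact abs_of_nonneg hnn
      · rw [abs_of_neg h] at hnn ⊢
        rw [mul_neg, Real.sin_neg] at hnn ⊢
        rw [abs_of_nonpos (by linarith)]
    rw [e3]
    have e4 := Real.mul_le_sin (x := Real.pi * |β|) (by positivity) (by nlinarith [Real.pi_pos])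
    have e5 : 2 / Real.pi * (Real.pi * |β|) = 2 * |β| := by
      have := Real.pi_ne_zero
      field_simp
    rw [e5] at e4
    linarith
  rw [norm_mul] at h2
  rw [le_div_iff₀ (by positivity)]
  have h4 : 0 ≤ ‖∑ n ∈ Ioc a k, ex (n * β)‖ := norm_nonneg _
  nlinarith

/-- the main weights -/
private theorem mwt_cases_Jin (o : Option (PCh × ℝ)) (c : PCh) (ho : OKb o 1) :
    (∀ u, mwt o c u = 1) ∨ (∀ u, mwt o c u = 0) ∨ (∃ δ : ℝ, 0 < δ ∧ ∀ u, mwt o c u = -u ^ (-δ)) := by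
  unfold mwt
  rcases o with _ | ⟨e, δ⟩
  · by_cases h : c.χ = 1
    · left
      intro u
      simp [h]
    · right; left
      intro u
      simp [h]
  · obtain ⟨⟨h1, h2⟩, h3, _⟩ := ho e δ rfl
    by_cases hce : c = e
    · right; right
      refine ⟨δ, h3, fun u => ?_⟩
      subst hce
      simp [h2]
    · by_cases h : c.χ = 1
      · left
        intro u
        simp [h, hce]
      · right; left
        intro u
        simp [h, hce]

private theorem mwt_var_Jin (o : Option (PCh × ℝ)) (c : PCh) (ho : OKb o 1) (k : ℕ) (hk : 1 ≤ k) :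
    |mwt o c k| ≤ 1 ∧ |mwt o c ((k + 1 : ℕ) : ℝ) - mwt o c k| = |mwt o c k| - |mwt o c ((k + 1 : ℕ) : ℝ)| := by
  have hk1 : (1 : ℝ) ≤ k := by exact_mod_cast hk
  rcases mwt_cases_Jin o c ho with h | h | ⟨δ, hδ, h⟩
  · rw [h, h]; simp
  · rw [h, h]; simp
  · rw [h, h]
    have h1 : (0 : ℝ) ≤ (k : ℝ) ^ (-δ) := by positivity
    have h2 : (0 : ℝ) ≤ ((k + 1 : ℕ) : ℝ) ^ (-δ) := by positivity
    have h3 : ((k + 1 : ℕ) : ℝ) ^ (-δ) ≤ (k : ℝ) ^ (-δ) := by
      apply Real.rpow_le_rpow_of_nonpos (by linarith)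
      · push_cast; linarith
      · linarith
    have h4 : (k : ℝ) ^ (-δ) ≤ 1 := Real.rpow_le_one_of_one_le_of_nonpos hk1 (by linarith)
    rw [abs_neg, abs_neg, abs_of_nonneg h1, abs_of_nonneg h2]
    refine ⟨h4, ?_⟩
    have h5 : -((k + 1 : ℕ) : ℝ) ^ (-δ) - -(k : ℝ) ^ (-δ) = (k : ℝ) ^ (-δ) - ((k + 1 : ℕ) : ℝ) ^ (-δ) := by
      ring
    rw [h5, abs_of_nonneg (by linarith)]

private theorem mwt_tv_Jin (o : Option (PCh × ℝ)) (c : PCh) (ho : OKb o 1) (a b : ℕ) (ha : 1 ≤ a)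
    (hab : a ≤ b) : ∑ k ∈ Ico a b, |mwt o c ((k + 1 : ℕ) : ℝ) - mwt o c k| =
      |mwt o c a| - |mwt o c b| := by
  induction b, hab using Nat.le_induction with
  | base => simp
  | succ b hb ih =>
    rw [Finset.sum_Ico_succ_top hb, ih, (mwt_var_Jin o c ho b (by omega)).2]
    ring

private theorem Mf_bound_Jin (o : Option (PCh × ℝ)) (c : PCh) (H : ℕ) (ho : OKb o 1) (hH : 1 ≤ H)
    (β : ℝ) (hβ0 : β ≠ 0) (hβ : |β| ≤ 1 / 2) : ‖Mf o c H β‖ ≤ 1 / |β| := by
  have hb : 0 < |β| := abs_pos.mpr hβ0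
  unfold Mf
  have h1 := abel_bound_Jin (fun n => mwt o c n) (fun n => ex (n * β)) (2 * H) (3 * H) (by omega)
    (1 / (2 * |β|)) (fun k _ _ => geo_Jin _ _ β hβ0 hβ)
  apply h1.trans
  have h2 := mwt_tv_Jin o c ho (2 * H) (3 * H) (by omega) (by omega)
  have h3 := (mwt_var_Jin o c ho (2 * H) (by omega)).1
  have h4 : (|mwt o c ((3 * H : ℕ) : ℝ)| + ∑ k ∈ Ico (2 * H) (3 * H),
      |mwt o c ((k + 1 : ℕ) : ℝ) - mwt o c (k : ℝ)|) ≤ 1 := by
    rw [h2]
    linarith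
  calc _ ≤ 1 * (1 / (2 * |β|)) := by
        apply mul_le_mul_of_nonneg_right h4 (by positivity)
    _ ≤ 1 / |β| := by
        rw [one_mul]
        apply one_div_le_one_div_of_le hb
        linarith

/-- total variation of the trapezoid -/
private theorem vt_step_Jin (N₀ H : ℕ) (hH : 1 ≤ H) (h4 : 4 * H < N₀) (k : ℕ) (hk : k < N₀) :
    |vt N₀ H ((k + 1 : ℕ) : ℝ) - vt N₀ H k| ≤
      (if k ∈ Ico (N₀ - 4 * H) (N₀ - 3 * H) then 1 / (H : ℝ) else 0) +
      (if k ∈ Ico (N₀ - H) N₀ then 1 / (H : ℝ) else 0) := by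
  have hH' : (0 : ℝ) < H := by exact_mod_cast hH
  have hp : (0 : ℝ) ≤ 1 / (H : ℝ) := by positivity
  -- Lipschitz
  have hlip : |vt N₀ H ((k + 1 : ℕ) : ℝ) - vt N₀ H k| ≤ 1 / H := by
    unfold vt
    set x := ((k : ℝ) - ((N₀ : ℝ) - 4 * H)) / H with hx
    set y := ((N₀ : ℝ) - k) / H with hy
    have e1 : (((k + 1 : ℕ) : ℝ) - ((N₀ : ℝ) - 4 * H)) / H = x + 1 / H := by
      rw [hx, ← add_div]; push_cast; ring
    have e2 : ((N₀ : ℝ) - ((k + 1 : ℕ) : ℝ)) / H = y - 1 / H := by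
      rw [hy, ← sub_div]; push_cast; ring
    rw [e1, e2]
    set p := 1 / (H : ℝ)
    rw [abs_le]
    constructor
    · rcases max_cases (0 : ℝ) (min 1 (min (x + p) (y - p))) with ⟨h, _⟩ | ⟨h, _⟩ <;>
      rcases max_cases (0 : ℝ) (min 1 (min x y)) with ⟨h', _⟩ | ⟨h', _⟩ <;>
      rcases min_cases (1 : ℝ) (min (x + p) (y - p)) with ⟨h1, _⟩ | ⟨h1, _⟩ <;>
      rcases min_cases (1 : ℝ) (min x y) with ⟨h2, _⟩ | ⟨h2, _⟩ <;>
      rcases min_cases (x + p) (y - p) with ⟨h3, _⟩ | ⟨h3, _⟩ <;>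
      rcases min_cases x y with ⟨h5, _⟩ | ⟨h5, _⟩ <;> linarith
    · rcases max_cases (0 : ℝ) (min 1 (min (x + p) (y - p))) with ⟨h, _⟩ | ⟨h, _⟩ <;>
      rcases max_cases (0 : ℝ) (min 1 (min x y)) with ⟨h', _⟩ | ⟨h', _⟩ <;>
      rcases min_cases (1 : ℝ) (min (x + p) (y - p)) with ⟨h1, _⟩ | ⟨h1, _⟩ <;>
      rcases min_cases (1 : ℝ) (min x y) with ⟨h2, _⟩ | ⟨h2, _⟩ <;>
      rcases min_cases (x + p) (y - p) with ⟨h3, _⟩ | ⟨h3, _⟩ <;>
      rcases min_cases x y with ⟨h5, _⟩ | ⟨h5, _⟩ <;> linarith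
  by_cases c1 : k ∈ Ico (N₀ - 4 * H) (N₀ - 3 * H)
  · rw [if_pos c1]
    split_ifs <;> linarith
  by_cases c2 : k ∈ Ico (N₀ - H) N₀
  · rw [if_pos c2]
    split_ifs <;> linarith
  rw [if_neg c1, if_neg c2, add_zero]
  -- equal values
  rw [Finset.mem_Ico] at c1 c2
  have heq : vt N₀ H ((k + 1 : ℕ) : ℝ) = vt N₀ H k := by
    by_cases d1 : k < N₀ - 4 * H
    · have f1 : k + 1 + 4 * H ≤ N₀ := by omega
      have f1' : ((k + 1 : ℕ) : ℝ) + 4 * H ≤ N₀ := by exact_mod_cast f1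
      have f2 : (((k + 1 : ℕ) : ℝ) - ((N₀ : ℝ) - 4 * H)) / H ≤ 0 := by
        apply div_nonpos_of_nonpos_of_nonneg _ hH'.le
        linarith
      have f3 : ((k : ℝ) - ((N₀ : ℝ) - 4 * H)) / H ≤ 0 := by
        apply div_nonpos_of_nonpos_of_nonneg _ hH'.le
        push_cast at f1'
        linarith
      unfold vt
      rw [max_eq_left ((min_le_right _ _).trans ((min_le_left _ _).trans f2)),
        max_eq_left ((min_le_right _ _).trans ((min_le_left _ _).trans f3))]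
    · have f1 : N₀ ≤ k + 3 * H := by omega
      have f2 : k + 1 + H ≤ N₀ := by omega
      have f1' : (N₀ : ℝ) ≤ k + 3 * H := by exact_mod_cast f1
      have f2' : (k : ℝ) + 1 + H ≤ N₀ := by exact_mod_cast f2
      unfold vt
      have g1 : (1 : ℝ) ≤ (((k + 1 : ℕ) : ℝ) - ((N₀ : ℝ) - 4 * H)) / H := by
        rw [le_div_iff₀ hH']; push_cast; linarith
      have g2 : (1 : ℝ) ≤ ((N₀ : ℝ) - ((k + 1 : ℕ) : ℝ)) / H := by
        rw [le_div_iff₀ hH']; push_cast; linarith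
      have g3 : (1 : ℝ) ≤ ((k : ℝ) - ((N₀ : ℝ) - 4 * H)) / H := by
        rw [le_div_iff₀ hH']; linarith
      have g4 : (1 : ℝ) ≤ ((N₀ : ℝ) - (k : ℝ)) / H := by
        rw [le_div_iff₀ hH']; linarith
      rw [min_eq_left (le_min g1 g2), min_eq_left (le_min g3 g4)]
  rw [heq, sub_self, abs_zero]

private theorem vt_tv_Jin (N₀ H : ℕ) (hH : 1 ≤ H) (h4 : 4 * H < N₀) :
    ∑ k ∈ Ico 0 N₀, |vt N₀ H ((k + 1 : ℕ) : ℝ) - vt N₀ H k| ≤ 2 := by
  have hH' : (0 : ℝ) < H := by exact_mod_cast hH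
  calc _ ≤ ∑ k ∈ Ico 0 N₀, ((if k ∈ Ico (N₀ - 4 * H) (N₀ - 3 * H) then 1 / (H : ℝ) else 0) +
      (if k ∈ Ico (N₀ - H) N₀ then 1 / (H : ℝ) else 0)) := by
        apply Finset.sum_le_sum
        intro k hk
        rw [Finset.mem_Ico] at hk
        exact vt_step_Jin N₀ H hH h4 k hk.2
    _ ≤ ((Ico (N₀ - 4 * H) (N₀ - 3 * H)).card : ℝ) * (1 / H) +
        ((Ico (N₀ - H) N₀).card : ℝ) * (1 / H) := by
        rw [Finset.sum_add_distrib]
        have aux : ∀ s : Finset ℕ, ∑ k ∈ Ico 0 N₀, (if k ∈ s then 1 / (H : ℝ) else 0) ≤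
            (s.card : ℝ) * (1 / H) := by
          intro s
          rw [← Finset.sum_filter, Finset.sum_const, nsmul_eq_mul]
          apply mul_le_mul_of_nonneg_right _ (by positivity)
          have : (Ico 0 N₀).filter (fun k => k ∈ s) ⊆ s := by
            intro x hx
            exact (Finset.mem_filter.mp hx).2
          exact_mod_cast Finset.card_le_card this
        exact add_le_add (aux _) (aux _)
    _ = 2 := by
        rw [Nat.card_Ico, Nat.card_Ico]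
        have e1 : N₀ - 3 * H - (N₀ - 4 * H) = H := by omega
        have e2 : N₀ - (N₀ - H) = H := by omega
        rw [e1, e2]
        field_simp
        norm_num

private theorem vt_mem_Jin (N₀ H : ℕ) (u : ℝ) : 0 ≤ vt N₀ H u ∧ vt N₀ H u ≤ 1 := by
  unfold vt
  exact ⟨le_max_left _ _, max_le zero_le_one (min_le_left _ _)⟩

private theorem Mg_bound_Jin (o : Option (PCh × ℝ)) (c : PCh) (N₀ H : ℕ) (ho : OKb o 1)
    (hH : 1 ≤ H) (h4 : 4 * H < N₀)
    (β : ℝ) (hβ0 : β ≠ 0) (hβ : |β| ≤ 1 / 2) : ‖Mg o c N₀ H β‖ ≤ 2 / |β| := by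
  have hb : 0 < |β| := abs_pos.mpr hβ0
  have hH' : (0 : ℝ) < H := by exact_mod_cast hH
  unfold Mg
  have h0 : Icc 1 N₀ = Ioc 0 N₀ := by
    ext x
    simp only [Finset.mem_Icc, Finset.mem_Ioc]
    omega
  rw [h0]
  have h1 := abel_bound_Jin (fun n => mwt o c n * vt N₀ H n) (fun n => ex (n * β)) 0 N₀ (by omega)
    (1 / (2 * |β|)) (fun k _ _ => geo_Jin _ _ β hβ0 hβ)
  push_cast at h1
  apply h1.trans
  -- value at the end
  have e1 : vt N₀ H (N₀ : ℝ) = 0 := by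
    unfold vt
    rw [sub_self, zero_div]
    exact max_eq_left ((min_le_right _ _).trans (min_le_right _ _))
  have e2 : vt N₀ H ((0 : ℕ) : ℝ) = 0 := by
    unfold vt
    apply max_eq_left
    apply (min_le_right _ _).trans
    apply (min_le_left _ _).trans
    apply div_nonpos_of_nonpos_of_nonneg _ hH'.le
    have : (4 * H : ℝ) < N₀ := by exact_mod_cast h4
    push_cast
    linarith
  -- total variation
  have e3 : ∑ k ∈ Ico 0 N₀, |mwt o c ((k + 1 : ℕ) : ℝ) * vt N₀ H ((k + 1 : ℕ) : ℝ) -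
      mwt o c (k : ℝ) * vt N₀ H k| ≤ 3 := by
    have f1 : ∀ k ∈ Ico 0 N₀, |mwt o c ((k + 1 : ℕ) : ℝ) * vt N₀ H ((k + 1 : ℕ) : ℝ) -
        mwt o c (k : ℝ) * vt N₀ H k| ≤ |vt N₀ H ((k + 1 : ℕ) : ℝ) - vt N₀ H k| +
          (if 1 ≤ k then |mwt o c ((k + 1 : ℕ) : ℝ) - mwt o c k| else 0) := by
      intro k hk
      have g1 := (mwt_var_Jin o c ho (k + 1) (by omega)).1
      have g2 := vt_mem_Jin N₀ H (k : ℝ)
      have g3 : mwt o c ((k + 1 : ℕ) : ℝ) * vt N₀ H ((k + 1 : ℕ) : ℝ) - mwt o c (k : ℝ) * vt N₀ H k =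
          mwt o c ((k + 1 : ℕ) : ℝ) * (vt N₀ H ((k + 1 : ℕ) : ℝ) - vt N₀ H k) +
          (mwt o c ((k + 1 : ℕ) : ℝ) - mwt o c k) * vt N₀ H k := by ring
      rw [g3]
      apply (abs_add_le _ _).trans
      rw [abs_mul, abs_mul]
      apply add_le_add
      · calc _ ≤ 1 * |vt N₀ H ((k + 1 : ℕ) : ℝ) - vt N₀ H k| :=
              mul_le_mul_of_nonneg_right g1 (abs_nonneg _)
          _ = _ := one_mul _
      · split_ifs with hk1
        · calc _ ≤ |mwt o c ((k + 1 : ℕ) : ℝ) - mwt o c k| * 1 := by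
                apply mul_le_mul_of_nonneg_left _ (abs_nonneg _)
                rw [abs_of_nonneg g2.1]
                exact g2.2
            _ = _ := mul_one _
        · have : k = 0 := by omega
          subst this
          rw [e2]
          simp
    calc _ ≤ ∑ k ∈ Ico 0 N₀, (|vt N₀ H ((k + 1 : ℕ) : ℝ) - vt N₀ H k| +
          (if 1 ≤ k then |mwt o c ((k + 1 : ℕ) : ℝ) - mwt o c k| else 0)) := Finset.sum_le_sum f1
      _ = ∑ k ∈ Ico 0 N₀, |vt N₀ H ((k + 1 : ℕ) : ℝ) - vt N₀ H k| +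
          ∑ k ∈ Ico 1 N₀, |mwt o c ((k + 1 : ℕ) : ℝ) - mwt o c k| := by
          rw [Finset.sum_add_distrib, ← Finset.sum_filter]
          congr 2
          ext x
          simp only [Finset.mem_filter, Finset.mem_Ico]
          omega
      _ ≤ 2 + 1 := by
          apply add_le_add (vt_tv_Jin N₀ H hH h4)
          rw [mwt_tv_Jin o c ho 1 N₀ le_rfl (by omega)]
          have g1 := (mwt_var_Jin o c ho 1 le_rfl).1
          have g2 := abs_nonneg (mwt o c N₀)
          linarith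
      _ = 3 := by norm_num
  have e4 : |mwt o c (N₀ : ℝ) * vt N₀ H (N₀ : ℝ)| + ∑ k ∈ Ico 0 N₀,
      |mwt o c ((k + 1 : ℕ) : ℝ) * vt N₀ H ((k + 1 : ℕ) : ℝ) - mwt o c (k : ℝ) * vt N₀ H k| ≤ 3 := by
    rw [e1, mul_zero, abs_zero, zero_add]
    exact e3
  push_cast at e4
  calc _ ≤ 3 * (1 / (2 * |β|)) := by
        apply mul_le_mul_of_nonneg_right e4 (by positivity)
    _ ≤ 2 / |β| := by
        rw [mul_one_div, div_le_div_iff₀ (by positivity) hb]
        nlinarith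

theorem hJin : StJin := by
  intro o c₁ c₂ H N₀ N B ho hH h1 h2 h3 hB hB2
  have key := ortho_Rri (fun n => ((mwt o c₁ n : ℝ) : ℂ)) (fun n => ((mwt o c₂ n : ℝ) : ℂ)) H N₀ N hH
    h1 h2 h3 (-(1 / 2))
  have hsum : ((∑ n ∈ Ioc (2 * H) (3 * H), mwt o c₁ n * mwt o c₂ ((N - n : ℕ) : ℝ) : ℝ) : ℂ) =
      ∑ n ∈ Ioc (2 * H) (3 * H), ((mwt o c₁ n : ℝ) : ℂ) * ((mwt o c₂ ((N - n : ℕ) : ℝ) : ℝ) : ℂ) := by
    push_cast
    rfl
  rw [hsum, ← key]
  set F : ℝ → ℂ := fun β => Mf o c₁ H β * Mg o c₂ N₀ H β * ex (-(N * β)) with hF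
  have hcont : Continuous F := by
    rw [hF]
    have c1 : Continuous (fun β => Mf o c₁ H β) := by
      unfold Mf
      apply continuous_finsetSum
      intro n _
      exact continuous_const.mul (ex_cont_Rri _)
    have c2 : Continuous (fun β => Mg o c₂ N₀ H β) := by
      unfold Mg
      apply continuous_finsetSum
      intro n _
      exact continuous_const.mul (ex_cont_Rri _)
    have c3 : Continuous (fun β : ℝ => ex (-(N * β))) := by
      have := ex_cont_Rri (-(N : ℝ))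
      simpa [neg_mul] using this
    exact (c1.mul c2).mul c3
  have hF2 : (∫ α in (-(1 / 2) : ℝ)..(-(1 / 2) + 1), (∑ n ∈ Ioc (2 * H) (3 * H),
      ((mwt o c₁ n : ℝ) : ℂ) * ex (n * α)) *
      (∑ m ∈ Icc 1 N₀, ((mwt o c₂ m : ℝ) : ℂ) * ((vt N₀ H m : ℝ) : ℂ) * ex (m * α)) * ex (-(N * α))) =
      ∫ β in (-(1 / 2) : ℝ)..(1 / 2), F β := by
    have : (-(1 / 2) + 1 : ℝ) = 1 / 2 := by norm_num
    rw [this]
    rfl
  rw [hF2]
  have hint : ∀ a b : ℝ, IntervalIntegrable F volume a b := fun a b => hcont.intervalIntegrable a b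
  have hsplit : (∫ β in (-(1 / 2) : ℝ)..(1 / 2), F β) = (∫ β in (-(1 / 2) : ℝ)..(-B), F β) +
      (∫ β in (-B)..B, F β) + ∫ β in B..(1 / 2), F β := by
    rw [intervalIntegral.integral_add_adjacent_intervals (hint _ _) (hint _ _),
      intervalIntegral.integral_add_adjacent_intervals (hint _ _) (hint _ _)]
  rw [hsplit]
  have hbound : ∀ β : ℝ, β ≠ 0 → |β| ≤ 1 / 2 → ‖F β‖ ≤ 2 * β ^ (-2 : ℤ) := by
    intro β hβ0 hβ
    have hb : 0 < |β| := abs_pos.mpr hβ0
    rw [hF]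
    simp only
    rw [norm_mul, norm_mul, ex_norm_Jin, mul_one]
    calc _ ≤ (1 / |β|) * (2 / |β|) := by
          apply mul_le_mul (Mf_bound_Jin o c₁ H ho hH β hβ0 hβ)
            (Mg_bound_Jin o c₂ N₀ H ho hH h1 β hβ0 hβ) (norm_nonneg _) (by positivity)
      _ = 2 * β ^ (-2 : ℤ) := by
          have : β ^ (-2 : ℤ) = 1 / (|β| * |β|) := by
            rw [abs_mul_abs_self, zpow_neg, one_div]
            congr 1
            rw [show (2 : ℤ) = ((2 : ℕ) : ℤ) from rfl, zpow_natCast]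
            ring
          rw [this]
          field_simp
  have hA : ‖∫ β in B..(1 / 2), F β‖ ≤ 2 / B := by
    have hne : (0 : ℝ) ∉ Set.uIcc B (1 / 2) := by
      rw [Set.uIcc_of_le hB2, Set.mem_Icc]
      intro h
      linarith [h.1]
    have i1 : IntervalIntegrable (fun β : ℝ => 2 * β ^ (-2 : ℤ)) volume B (1 / 2) :=
      (intervalIntegral.intervalIntegrable_zpow (Or.inr hne)).const_mul 2
    have i2 := intervalIntegral.norm_integral_le_of_norm_le (μ := volume) (f := F)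
      (g := fun β : ℝ => 2 * β ^ (-2 : ℤ)) hB2
      (Filter.Eventually.of_forall (fun β hβ => hbound β (by linarith [hβ.1])
        (by rw [abs_of_pos (by linarith [hβ.1])]; exact hβ.2))) i1
    rw [intervalIntegral.integral_const_mul, integral_zpow (Or.inr ⟨by norm_num, hne⟩)] at i2
    apply i2.trans
    norm_num
    have : 2 / B = 2 * B⁻¹ := div_eq_mul_inv _ _
    rw [this]
    linarith
  have hA2 : ‖∫ β in (-(1 / 2) : ℝ)..(-B), F β‖ ≤ 2 / B := by
    have hne : (0 : ℝ) ∉ Set.uIcc (-(1 / 2)) (-B) := by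
      rw [Set.uIcc_of_le (by linarith), Set.mem_Icc]
      intro h
      linarith [h.2]
    have i1 : IntervalIntegrable (fun β : ℝ => 2 * β ^ (-2 : ℤ)) volume (-(1 / 2)) (-B) :=
      (intervalIntegral.intervalIntegrable_zpow (Or.inr hne)).const_mul 2
    have i2 := intervalIntegral.norm_integral_le_of_norm_le (μ := volume) (f := F)
      (g := fun β : ℝ => 2 * β ^ (-2 : ℤ)) (by linarith : (-(1 / 2) : ℝ) ≤ -B)
      (Filter.Eventually.of_forall (fun β hβ => hbound β (by linarith [hβ.2])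
        (by rw [abs_of_neg (by linarith [hβ.2])]; linarith [hβ.1]))) i1
    rw [intervalIntegral.integral_const_mul, integral_zpow (Or.inr ⟨by norm_num, hne⟩)] at i2
    apply i2.trans
    norm_num
    have : 2 / B = 2 * B⁻¹ := div_eq_mul_inv _ _
    rw [this]
    linarith
  have hfin : (∫ β in (-B)..B, Mf o c₁ H β * Mg o c₂ N₀ H β * ex (-(N * β))) -
      ((∫ β in (-(1 / 2) : ℝ)..(-B), F β) + (∫ β in (-B)..B, F β) + ∫ β in B..(1 / 2), F β) =
      -((∫ β in (-(1 / 2) : ℝ)..(-B), F β) + ∫ β in B..(1 / 2), F β) := by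
    rw [hF]
    ring
  rw [hfin, norm_neg]
  apply (norm_add_le _ _).trans
  have : 4 / B = 2 / B + 2 / B := by ring
  rw [this]
  exact add_le_add hA2 hA

end Pool.Agent.Helper99.MV
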