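import Pool.Agent.Helper23.MV.StC

/-!
# Project MV, module RRI: the number of representations as an integral
-/

set_option autoImplicit false

namespace Pool.Agent.Helper99.MV

open Finset MeasureTheory
open Pool.Agent.Helper48.BK (ex th)
open Pool.Agent.Helper23.MV

theorem ex_add_Rri (s t : ℝ) : ex (s + t) = ex s * ex t := by
  unfold ex
  rw [← Complex.exp_add]
  congr 1
  push_cast
  ring

theorem ex_cont_Rri (k : ℝ) : Continuous (fun t : ℝ => ex (k * t)) := by
  unfold ex
  fun_prop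

/-- integral of `ex (k t)` over an interval of length one, `k` an integer -/
theorem integral_ex_Rri (k : ℤ) (a : ℝ) :
    ∫ t in a..(a + 1), ex (k * t) = if k = 0 then 1 else 0 := by
  unfold ex
  split_ifs with h
  · subst h
    simp
  · have hk : (k : ℂ) ≠ 0 := by exact_mod_cast h
    have h2 : (2 * (Real.pi : ℂ) * k * Complex.I) ≠ 0 := by
      have := Real.pi_ne_zero
      have h3 : (Real.pi : ℂ) ≠ 0 := by exact_mod_cast this
      simp [h3, hk, Complex.I_ne_zero]
    have h1 : ∀ t : ℝ, Complex.exp (2 * (Real.pi : ℂ) * ((k * t : ℝ) : ℂ) * Complex.I) =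
        Complex.exp ((2 * (Real.pi : ℂ) * k * Complex.I) * t) := by
      intro t
      congr 1
      push_cast
      ring
    simp_rw [h1]
    rw [integral_exp_mul_complex h2]
    have h4 : Complex.exp (2 * (Real.pi : ℂ) * k * Complex.I * ((a + 1 : ℝ) : ℂ)) =
        Complex.exp (2 * (Real.pi : ℂ) * k * Complex.I * a) := by
      rw [Complex.exp_eq_exp_iff_exists_int]
      refine ⟨k, ?_⟩
      push_cast
      ring
    rw [h4, sub_self, zero_div]

/-- the weight is one on the relevant range -/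
theorem vt_one_Rri (H N₀ N n : ℕ) (hH : 1 ≤ H) (h1 : 4 * H < N₀) (h2 : N₀ < N) (h3 : N ≤ N₀ + H)
    (hn : n ∈ Ioc (2 * H) (3 * H)) : (N - n) ∈ Icc 1 N₀ ∧ vt N₀ H ((N - n : ℕ) : ℝ) = 1 := by
  rw [Finset.mem_Ioc] at hn
  have h4 : N₀ < (N - n) + 3 * H := by omega
  have h5 : (N - n) + H < N₀ := by omega
  refine ⟨by rw [Finset.mem_Icc]; omega, ?_⟩
  have h4' : (N₀ : ℝ) < ((N - n : ℕ) : ℝ) + 3 * H := by exact_mod_cast h4
  have h5' : ((N - n : ℕ) : ℝ) + H < N₀ := by exact_mod_cast h5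
  have hH' : (0 : ℝ) < H := by exact_mod_cast hH
  unfold vt
  have e1 : (1 : ℝ) ≤ (((N - n : ℕ) : ℝ) - ((N₀ : ℝ) - 4 * H)) / H := by
    rw [le_div_iff₀ hH']; linarith
  have e2 : (1 : ℝ) ≤ ((N₀ : ℝ) - ((N - n : ℕ) : ℝ)) / H := by
    rw [le_div_iff₀ hH']; linarith
  rw [min_eq_left (le_min e1 e2)]
  exact max_eq_right zero_le_one

/-- orthogonality for the product of two exponential sums -/
theorem ortho_Rri (f g : ℕ → ℂ) (H N₀ N : ℕ) (hH : 1 ≤ H) (h1 : 4 * H < N₀) (h2 : N₀ < N)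
    (h3 : N ≤ N₀ + H) (a : ℝ) :
    ∫ α in a..(a + 1), (∑ n ∈ Ioc (2 * H) (3 * H), f n * ex (n * α)) *
      (∑ m ∈ Icc 1 N₀, g m * ((vt N₀ H m : ℝ) : ℂ) * ex (m * α)) * ex (-(N * α)) =
    ∑ n ∈ Ioc (2 * H) (3 * H), f n * g (N - n) := by
  have e1 : ∀ α : ℝ, (∑ n ∈ Ioc (2 * H) (3 * H), f n * ex (n * α)) *
      (∑ m ∈ Icc 1 N₀, g m * ((vt N₀ H m : ℝ) : ℂ) * ex (m * α)) * ex (-(N * α)) =
      ∑ n ∈ Ioc (2 * H) (3 * H), ∑ m ∈ Icc 1 N₀,
        (f n * (g m * ((vt N₀ H m : ℝ) : ℂ))) * ex (((n : ℤ) + m - N : ℤ) * α) := by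
    intro α
    rw [Finset.sum_mul_sum, Finset.sum_mul]
    apply Finset.sum_congr rfl
    intro n _
    rw [Finset.sum_mul]
    apply Finset.sum_congr rfl
    intro m _
    have : (((n : ℤ) + m - N : ℤ) : ℝ) * α = (n * α + m * α) + (-(N * α)) := by
      push_cast
      ring
    rw [this, ex_add_Rri, ex_add_Rri]
    ring
  simp_rw [e1]
  rw [intervalIntegral.integral_finset_sum]
  · apply Finset.sum_congr rfl
    intro n hn
    rw [intervalIntegral.integral_finset_sum]
    · simp_rw [intervalIntegral.integral_const_mul, integral_ex_Rri]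
      obtain ⟨hm1, hm2⟩ := vt_one_Rri H N₀ N n hH h1 h2 h3 hn
      have hn' := Finset.mem_Ioc.mp hn
      rw [Finset.sum_eq_single (N - n)]
      · rw [hm2]
        have : ((n : ℤ) + ((N - n : ℕ) : ℤ) - N) = 0 := by omega
        rw [if_pos this]
        push_cast
        ring
      · intro m hm hne
        have : ¬ ((n : ℤ) + (m : ℤ) - N) = 0 := by omega
        rw [if_neg this, mul_zero]
      · intro h
        exact absurd hm1 h
    · intro m _
      apply Continuous.intervalIntegrable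
      exact continuous_const.mul (ex_cont_Rri _)
  · intro n _
    apply Continuous.intervalIntegrable
    apply continuous_finset_sum
    intro m _
    exact continuous_const.mul (ex_cont_Rri _)

theorem hRri : StRri := by
  intro H N₀ N hH h1 h2 h3
  have key := ortho_Rri (fun n => ((th n : ℝ) : ℂ)) (fun n => ((th n : ℝ) : ℂ)) H N₀ N hH h1 h2 h3 0
  rw [zero_add] at key
  unfold SfH SgH
  rw [key]
  push_cast
  rfl

end Pool.Agent.Helper99.MV
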